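import Pool.Agent.R804.Flat.Final

/-!
# Flattened Stirling permutations with three runs

Their exact number for every order `n`; the identity of Q1 as printed fails at `n = 5`, and the
identity with the second double sum doubled holds for every `n`.
-/

set_option autoImplicit false

namespace Pool.Agent.Results.MP_793dac_co.ThreeRuns

open Pool.Agent.R804.Flat

/-- `flat3 n` is the number of flattened Stirling permutations of order `n` with exactly three
runs, and `rhs c n` is the right-hand side of Q1 with coefficient `c` before the second double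
sum (the printed formula is `rhs 1 n`). -/
theorem result :
    (∀ n : ℕ, 1 ≤ n → flat3 n = rhs 2 n) ∧
    (∀ m : ℕ, 2 * flat3 (m + 1) + (6 * m + 20) * 2 ^ m
      = 9 * 3 ^ m + 4 * m ^ 2 + 10 * m + 11) ∧
    flat3 5 = 70 ∧ rhs 1 5 = 64 ∧ ¬ ∀ n : ℕ, 1 ≤ n → flat3 n = rhs 1 n := by
  refine ⟨fun n hn => flat3_eq_rhs hn, flat3_closed, flat3_five, rhs_one_five, fun h => ?_⟩
  have := h 5 (by norm_num)
  rw [flat3_five, rhs_one_five] at this
  exact absurd this (by norm_num)

end Pool.Agent.Results.MP_793dac_co.ThreeRuns
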